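import Mathlib

/-!
The minimum principle for the backward system of type (II).
-/

set_option autoImplicit false

namespace Pool.Agent.RatMin

/-- `v / (om + (1 - om) v)` -/
noncomputable def rho (om v : ℝ) : ℝ := v / (om + (1 - om) * v)

section basic

variable {om : ℝ}

lemma rho_den_pos (h0 : 0 < om) (h1 : om < 1) {v : ℝ} (hv : 0 ≤ v) : 0 < om + (1 - om) * v := by
  have : 0 ≤ (1 - om) * v := mul_nonneg (by linarith) hv
  linarith

lemma rho_nonneg (h0 : 0 < om) (h1 : om < 1) {v : ℝ} (hv : 0 ≤ v) : 0 ≤ rho om v :=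
  div_nonneg hv (rho_den_pos h0 h1 hv).le

lemma rho_pos (h0 : 0 < om) (h1 : om < 1) {v : ℝ} (hv : 0 < v) : 0 < rho om v :=
  div_pos hv (rho_den_pos h0 h1 hv.le)

lemma rho_mono (h0 : 0 < om) (h1 : om < 1) {v w : ℝ} (hv : 0 ≤ v) (hvw : v ≤ w) :
    rho om v ≤ rho om w := by
  unfold rho
  rw [div_le_div_iff₀ (rho_den_pos h0 h1 hv) (rho_den_pos h0 h1 (hv.trans hvw))]
  nlinarith

/-- `(1 - om) rho ≤ 1` -/
lemma rho_le (h0 : 0 < om) (h1 : om < 1) {v : ℝ} (hv : 0 ≤ v) : (1 - om) * rho om v ≤ 1 := by
  unfold rho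
  rw [← mul_div_assoc, div_le_one (rho_den_pos h0 h1 hv)]
  linarith

lemma le_rho (h0 : 0 < om) (h1 : om < 1) {v : ℝ} (hv : 0 ≤ v) (hv1 : v ≤ 1) :
    v ≤ rho om v := by
  unfold rho
  rw [le_div_iff₀ (rho_den_pos h0 h1 hv)]
  nlinarith [mul_nonneg hv (sub_nonneg.2 hv1), mul_nonneg (mul_nonneg hv (sub_nonneg.2 hv1)) (sub_nonneg.2 h1.le)]

/-- subadditivity -/
lemma rho_add_le (h0 : 0 < om) (h1 : om < 1) {v w : ℝ} (hv : 0 ≤ v) (hw : 0 ≤ w) :
    rho om (v + w) ≤ rho om v + rho om w := by
  unfold rho
  have a := rho_den_pos h0 h1 hv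
  have b := rho_den_pos h0 h1 hw
  have c := rho_den_pos h0 h1 (add_nonneg hv hw)
  have e : 0 ≤ 1 - om := by linarith
  rw [add_div]
  apply add_le_add
  · apply div_le_div_of_nonneg_left hv a
    nlinarith [mul_nonneg e hw]
  · apply div_le_div_of_nonneg_left hw b
    nlinarith [mul_nonneg e hv]

/-- `lam * rho v ≤ rho (lam v)` for `lam ≤ 1` -/
lemma rho_smul_ge (h0 : 0 < om) (h1 : om < 1) {v lam : ℝ} (hv : 0 ≤ v) (hl : 0 ≤ lam)
    (hl1 : lam ≤ 1) : lam * rho om v ≤ rho om (lam * v) := by
  unfold rho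
  have a := rho_den_pos h0 h1 hv
  have b := rho_den_pos h0 h1 (mul_nonneg hl hv)
  rw [← mul_div_assoc]
  apply div_le_div_of_nonneg_left (mul_nonneg hl hv) b
  have e : 0 ≤ 1 - om := by linarith
  nlinarith [mul_nonneg e (mul_nonneg (sub_nonneg.2 hl1) hv)]

end basic

/-- the correction term -/
lemma corr (om p m x : ℝ) (h0 : 0 < om) (h1 : om < 1) (hp : 0 < p) (hm : 0 < m) (hx : 0 ≤ x)
    (_hmp : m ≤ p) (_h34 : om ≤ 3 / 4) :
    (m * om ≤ p ^ 2 ∧ 0 ≤ p * x - m * om * (x / (p + (1 - om) * x))) ∨
    (p ^ 2 < m * om ∧ -((m / p) ^ 2 * om ^ 2 / (16 * (1 - om))) ≤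
      p * x - m * om * (x / (p + (1 - om) * x))) := by
  have hbe : 0 < 1 - om := by linarith
  have hq : 0 < p + (1 - om) * x := by positivity
  rcases le_or_gt (m * om) (p ^ 2) with h | h
  · left
    refine ⟨h, ?_⟩
    have : m * om * (x / (p + (1 - om) * x)) ≤ p * x := by
      rw [← mul_div_assoc, div_le_iff₀ hq]
      nlinarith [mul_nonneg hx hx, mul_nonneg (mul_nonneg hbe.le hp.le) (mul_nonneg hx hx)]
    linarith
  · right
    refine ⟨h, ?_⟩
    -- with q = p + be x, f = [p q - m om - p^2 + p m om / q] / be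
    set q := p + (1 - om) * x with hqd
    have hx' : x = (q - p) / (1 - om) := by rw [hqd]; field_simp; ring
    have e1 : p * x - m * om * (x / q) = (p * q - m * om - p ^ 2 + p * (m * om) / q) / (1 - om) := by
      rw [hx']; field_simp; ring
    rw [e1]
    have e2 : (m / p) ^ 2 * om ^ 2 / (16 * (1 - om)) = ((m / p) ^ 2 * om ^ 2 / 16) / (1 - om) := by
      field_simp
    rw [e2, ← neg_div, div_le_div_iff_of_pos_right hbe]
    -- k = sqrt (m om)
    set k := Real.sqrt (m * om) with hk
    have hk2 : k ^ 2 = m * om := Real.sq_sqrt (by positivity)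
    have hk0 : 0 < k := Real.sqrt_pos.2 (by positivity)
    have h3 : 2 * p * k ≤ p * q + p * (m * om) / q := by
      rw [← hk2]
      have : p * q + p * k ^ 2 / q - 2 * p * k = p * (q - k) ^ 2 / q := by
        field_simp; ring
      have h4 : 0 ≤ p * (q - k) ^ 2 / q := by positivity
      linarith
    have h5 : (m / p) ^ 2 * om ^ 2 / 16 - (k - p) ^ 2 ≥ 0 := by
      have e3 : (m / p) ^ 2 * om ^ 2 / 16 = (k ^ 2 / (4 * p)) ^ 2 := by
        rw [hk2]; field_simp; ring
      rw [e3]
      have h6 : 0 ≤ k - p := by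
        by_contra hh
        push Not at hh
        nlinarith
      have h7 : k - p ≤ k ^ 2 / (4 * p) := by
        rw [le_div_iff₀ (by positivity)]
        nlinarith [sq_nonneg (k - 2 * p)]
      have h8 : (k - p) ^ 2 ≤ (k ^ 2 / (4 * p)) ^ 2 := by
        apply pow_le_pow_left₀ h6 h7
      linarith
    nlinarith [h3, h5, hk2]

lemma small_one {mu om be s0 m : ℝ} (h0 : 0 ≤ mu) (h1 : mu ≤ 1) (ho : 0 < om) (ho1 : om ≤ 3 / 4)
    (hb : 1 / 4 ≤ be) (hs : mu ≤ s0) (hm : m ≤ 3 / 4) :
    mu ^ 2 * om ^ 2 / (16 * be) ≤ s0 * (1 - m) := by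
  have hb0 : 0 < be := by linarith
  have h8 : mu ^ 2 * om ^ 2 / (16 * be) ≤ mu * (1 / 4) := by
    rw [div_le_iff₀ (by positivity)]
    have a2 : om ^ 2 ≤ 9 / 16 := by nlinarith
    have a3 : mu ^ 2 ≤ mu := by nlinarith
    have a4 : mu ^ 2 * om ^ 2 ≤ mu * (9 / 16) :=
      mul_le_mul a3 a2 (sq_nonneg _) h0
    have a5 : mu * (1 / 4) ≤ mu * be := mul_le_mul_of_nonneg_left hb h0
    linarith
  have h9 : mu * (1 / 4) ≤ s0 * (1 - m) :=
    mul_le_mul hs (by linarith) (by norm_num) (h0.trans hs)
  linarith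

lemma small_two {mu om be s0 m : ℝ} (h0 : 0 ≤ mu) (h1 : mu ≤ 1) (ho : 0 < om) (ho1 : om ≤ 1 / 2)
    (hb : be = 1 - om) (hs : mu ≤ s0) (hm : m ≤ om) :
    mu ^ 2 * om ^ 2 / (16 * be) ≤ s0 * (om / be) * (1 - 2 * (m * be)) := by
  have hb0 : 0 < be := by linarith
  have a4 : 1 / 2 ≤ 1 - 2 * (m * be) := by
    have b1 : m * be ≤ om * be := mul_le_mul_of_nonneg_right hm hb0.le
    have b2 : om * be ≤ 1 / 4 := by rw [hb]; nlinarith [sq_nonneg (om - 1 / 2)]
    linarith
  have h8 : mu ^ 2 * om ^ 2 / (16 * be) ≤ mu * (om / be) * (1 / 2) := by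
    rw [div_le_iff₀ (by positivity)]
    have e : mu * (om / be) * (1 / 2) * (16 * be) = 8 * (mu * om) := by
      field_simp; ring
    rw [e]
    have a3 : mu ^ 2 ≤ mu := by nlinarith
    have a5 : om ^ 2 ≤ om := by nlinarith
    have a6 : mu ^ 2 * om ^ 2 ≤ mu * om := mul_le_mul a3 a5 (sq_nonneg _) h0
    have a7 : 0 ≤ mu * om := mul_nonneg h0 ho.le
    linarith
  have h9 : mu * (om / be) * (1 / 2) ≤ s0 * (om / be) * (1 - 2 * (m * be)) := by
    apply mul_le_mul _ a4 (by norm_num) _
    · exact mul_le_mul_of_nonneg_right hs (by positivity)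
    · exact mul_nonneg (h0.trans hs) (by positivity)
  linarith

lemma quad_two {be m : ℝ} (hb : 0 < be) :
    (4 * be - 1) / (4 * be ^ 2) ≤ (1 - m) / be + m ^ 2 := by
  have : (1 - m) / be + m ^ 2 = (4 * be * (1 - m) + 4 * be ^ 2 * m ^ 2) / (4 * be ^ 2) := by
    field_simp
  rw [this, div_le_div_iff_of_pos_right (by positivity)]
  nlinarith [sq_nonneg (2 * be * m - 1)]

lemma quad_three {om be m : ℝ} (ho : 0 < om) (hb : 0 < be) (hs : om + be = 1) :
    om / be ≤ om / be ^ 2 * (1 - 2 * (m * be)) + m ^ 2 := by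
  have e1 : om / be = om * be / be ^ 2 := by field_simp
  have e2 : om / be ^ 2 * (1 - 2 * (m * be)) + m ^ 2
      = (om * (1 - 2 * (m * be)) + be ^ 2 * m ^ 2) / be ^ 2 := by field_simp
  rw [e1, e2, div_le_div_iff_of_pos_right (by positivity)]
  have e3 : om * (1 - 2 * (m * be)) + be ^ 2 * m ^ 2 - om * be = (be * m - om) ^ 2 := by
    have : be = 1 - om := by linarith
    rw [this]; ring
  nlinarith [sq_nonneg (be * m - om)]

/-- the main inequality for type (II) -/
theorem two_main {om A p m0 : ℝ} (h0 : 0 < om) (h34 : om < 3 / 4) (hA : 0 ≤ A) (hAp : A < p)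
    (hm0 : 0 < m0) :
    ∃ g0 > 0, ∀ m y1 y2 y3 : ℝ, m0 ≤ m → m ≤ p - A → m ≤ y1 → m ≤ y2 → m ≤ y3 →
      g0 ≤ rho om ((A + om * y2 + (1 - om) * y3) / p) + p * y1
        - m * (A + om * rho om ((A + om * y1 + (1 - om) * y2) / p)
            + (1 - om) * rho om ((A + om * y2 + (1 - om) * y3) / p)) := by
  have h1 : om < 1 := by linarith
  have hp : 0 < p := by linarith
  have hbe : 1 / 4 < 1 - om := by linarith
  have hbe0 : 0 < 1 - om := by linarith
  set be := 1 - om with hbed
  refine ⟨min (min (m0 ^ 2) ((4 * be - 1) / (4 * be ^ 2))) (min (om / be) 1), ?_, ?_⟩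
  · refine lt_min (lt_min (by positivity) ?_) (lt_min (by positivity) one_pos)
    have : 0 < 4 * be - 1 := by linarith
    positivity
  intro m y1 y2 y3 hmm hmd hy1 hy2 hy3
  have hm : 0 < m := lt_of_lt_of_le hm0 hmm
  set d := p - A with hd
  have hmp : m ≤ p := by linarith
  set t := rho om ((A + om * y2 + be * y3) / p) with ht
  set s := rho om ((A + om * y1 + be * y2) / p) with hs
  set w0 := (A + m + be * (y2 - m)) / p with hw0
  set s0 := rho om w0 with hs0
  set x := y1 - m with hx
  have hx0 : 0 ≤ x := by linarith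
  have hu0 : 0 ≤ y2 - m := by linarith
  have hw0p : (A + m) / p ≤ w0 := by
    rw [hw0, div_le_div_iff_of_pos_right hp]
    have := mul_nonneg hbe0.le hu0
    linarith
  have hAmp : 0 < (A + m) / p := by positivity
  have hw0pos : 0 < w0 := lt_of_lt_of_le hAmp hw0p
  have hs0pos : 0 < s0 := rho_pos h0 h1 hw0pos
  have hs0le : be * s0 ≤ 1 := rho_le h0 h1 hw0pos.le
  have hv2pos : 0 ≤ (A + om * y2 + be * y3) / p := by
    have : 0 ≤ y2 := by linarith
    have : 0 ≤ y3 := by linarith
    positivity
  have htle : be * t ≤ 1 := rho_le h0 h1 hv2pos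
  have htnn : 0 ≤ t := rho_nonneg h0 h1 hv2pos
  -- bound for s
  have hsle : s ≤ s0 + x / (p + be * x) := by
    have e1 : (A + om * y1 + be * y2) / p = w0 + om * x / p := by
      rw [hw0, hx]; field_simp; rw [hbed]; ring
    have e2 : rho om (om * x / p) = x / (p + be * x) := by
      unfold rho
      rw [← hbed]
      have : om + be * (om * x / p) = om * (p + be * x) / p := by field_simp
      rw [this]
      have : 0 < p + be * x := by positivity
      field_simp
    rw [hs, e1]
    calc rho om (w0 + om * x / p) ≤ rho om w0 + rho om (om * x / p) :=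
          rho_add_le h0 h1 hw0pos.le (by positivity)
      _ = _ := by rw [e2]
  -- G
  have hG : t * (1 - m * be) + m * d - m * om * s0 + (p * x - m * om * (x / (p + be * x)))
      ≤ t + p * y1 - m * (A + om * s + be * t) := by
    have : m * om * s ≤ m * om * (s0 + x / (p + be * x)) :=
      mul_le_mul_of_nonneg_left hsle (by positivity)
    have e : p * y1 = p * x + p * m := by rw [hx]; ring
    nlinarith
  refine le_trans ?_ hG
  -- lower bounds for t
  have hmu : m / p ≤ (A + m) / p := by gcongr; linarith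
  have hc1 : (A + m) / p ≤ 1 := by rw [div_le_one hp]; linarith
  have hs0mu : m / p ≤ s0 := by
    calc m / p ≤ (A + m) / p := hmu
      _ ≤ rho om ((A + m) / p) := le_rho h0 h1 hAmp.le hc1
      _ ≤ s0 := rho_mono h0 h1 hAmp.le hw0p
  have hcorr := corr om p m x h0 h1 hp hm hx0 hmp h34.le
  rw [← hbed] at hcorr
  have hmd2 : m ^ 2 ≤ m * d := by nlinarith
  have hm02 : m0 ^ 2 ≤ m ^ 2 := by apply pow_le_pow_left₀ hm0.le hmm
  have hg1 : min (min (m0 ^ 2) ((4 * be - 1) / (4 * be ^ 2))) (min (om / be) 1) ≤ m0 ^ 2 :=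
    (min_le_left _ _).trans (min_le_left _ _)
  have hg2 : min (min (m0 ^ 2) ((4 * be - 1) / (4 * be ^ 2))) (min (om / be) 1)
      ≤ (4 * be - 1) / (4 * be ^ 2) := (min_le_left _ _).trans (min_le_right _ _)
  have hg3 : min (min (m0 ^ 2) ((4 * be - 1) / (4 * be ^ 2))) (min (om / be) 1) ≤ om / be :=
    (min_le_right _ _).trans (min_le_left _ _)
  have hg4 : min (min (m0 ^ 2) ((4 * be - 1) / (4 * be ^ 2))) (min (om / be) 1) ≤ 1 :=
    (min_le_right _ _).trans (min_le_right _ _)
  set g0 := min (min (m0 ^ 2) ((4 * be - 1) / (4 * be ^ 2))) (min (om / be) 1) with hg0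
  -- if the correction is not zero, then m < om and p < om
  have hsmall : p ^ 2 < m * om → p < om ∧ m < om := by
    intro h
    have : p < om := by nlinarith
    exact ⟨this, by linarith⟩
  rcases le_or_gt 1 (m * be) with hc | hc
  · -- case (i)
    have hno : m * om ≤ p ^ 2 ∧ 0 ≤ p * x - m * om * (x / (p + be * x)) := by
      rcases hcorr with h | h
      · exact h
      · exfalso
        obtain ⟨_, h2⟩ := hsmall h.1
        nlinarith
    have h3 : m * om * s0 ≤ m * om / be := by
      rw [le_div_iff₀ hbe0]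
      nlinarith [mul_nonneg hm.le h0.le]
    have h4 : 1 / be - m ≤ t * (1 - m * be) := by
      have : t ≤ 1 / be := by rw [le_div_iff₀ hbe0]; linarith
      have e : 1 / be - m = (1 / be) * (1 - m * be) := by field_simp
      rw [e]
      nlinarith
    have h5 : 1 ≤ 1 / be - m - m * om / be + m * d := by
      have e : 1 / be - m - m * om / be = (1 - m) / be := by
        rw [div_sub' hbe0.ne', ← sub_div]
        congr 1
        rw [hbed]; ring
      rw [e]
      have : (1 - m) / be + m ^ 2 = (1 + m * (m * be - 1)) / be := by field_simp; ring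
      have h6 : 1 ≤ (1 + m * (m * be - 1)) / be := by
        rw [le_div_iff₀ hbe0]
        have a1 : 0 ≤ m * (m * be - 1) := mul_nonneg hm.le (by linarith)
        have a2 : be ≤ 1 := by linarith
        linarith
      linarith
    linarith [hno.2]
  · rcases le_or_gt be om with hob | hob
    · -- case (ii)
      have hts0 : s0 ≤ t := by
        apply rho_mono h0 h1 hw0pos.le
        rw [hw0, div_le_div_iff_of_pos_right hp]
        have b1 : be * (y2 - m) ≤ om * (y2 - m) := mul_le_mul_of_nonneg_right hob hu0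
        have b2 : be * m ≤ be * y3 := mul_le_mul_of_nonneg_left hy3 hbe0.le
        have b3 : om * m + be * m = m := by rw [hbed]; ring
        linarith
      have h6 : s0 * (1 - m) ≤ t * (1 - m * be) - m * om * s0 := by
        have : s0 * (1 - m * be) ≤ t * (1 - m * be) :=
          mul_le_mul_of_nonneg_right hts0 (by linarith)
        have e : s0 * (1 - m) = s0 * (1 - m * be) - m * om * s0 := by rw [hbed]; ring
        linarith
      rcases le_or_gt m 1 with hm1 | hm1
      · rcases hcorr with h | h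
        · have : 0 ≤ s0 * (1 - m) := mul_nonneg hs0pos.le (by linarith)
          linarith [h.2]
        · obtain ⟨hpo, hmo⟩ := hsmall h.1
          have h7 : (m / p) ^ 2 * om ^ 2 / (16 * be) ≤ s0 * (1 - m) :=
            small_one (by positivity) ((div_le_one hp).2 hmp) h0 h34.le hbe.le hs0mu (by linarith)
          linarith [h.2]
      · have hno : 0 ≤ p * x - m * om * (x / (p + be * x)) := by
          rcases hcorr with h | h
          · exact h.2
          · exfalso
            obtain ⟨_, h2⟩ := hsmall h.1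
            linarith
        have h7 : (1 - m) / be ≤ s0 * (1 - m) := by
          rw [div_le_iff₀ hbe0]
          nlinarith
        have h8 := quad_two (m := m) hbe0
        linarith
    · -- case (iii)
      have hom12 : om < 1 / 2 := by linarith
      have hlam : om / be ≤ 1 := by rw [div_le_one hbe0]; exact hob.le
      have hts0 : om / be * s0 ≤ t := by
        calc om / be * s0 ≤ rho om (om / be * w0) :=
              rho_smul_ge h0 h1 hw0pos.le (by positivity) hlam
          _ ≤ t := by
              apply rho_mono h0 h1 (by positivity)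
              rw [hw0, ← mul_div_assoc, div_le_div_iff_of_pos_right hp]
              have e : om / be * (A + m + be * (y2 - m)) = om / be * (A + m) + om * (y2 - m) := by
                field_simp
              rw [e]
              have b1 : om / be * (A + m) ≤ 1 * (A + m) :=
                mul_le_mul_of_nonneg_right hlam (by positivity)
              have b2 : be * m ≤ be * y3 := mul_le_mul_of_nonneg_left hy3 hbe0.le
              have b3 : om * m + be * m = m := by rw [hbed]; ring
              linarith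
      have h6 : s0 * (om / be) * (1 - 2 * (m * be)) ≤ t * (1 - m * be) - m * om * s0 := by
        have : om / be * s0 * (1 - m * be) ≤ t * (1 - m * be) :=
          mul_le_mul_of_nonneg_right hts0 (by linarith)
        have e : s0 * (om / be) * (1 - 2 * (m * be)) = om / be * s0 * (1 - m * be) - m * om * s0 := by
          field_simp; ring
        linarith
      rcases le_or_gt (2 * (m * be)) 1 with h2 | h2
      · rcases hcorr with h | h
        · have : 0 ≤ s0 * (om / be) * (1 - 2 * (m * be)) :=
            mul_nonneg (mul_nonneg hs0pos.le (by positivity)) (by linarith)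
          linarith [h.2]
        · obtain ⟨hpo, hmo⟩ := hsmall h.1
          have h7 : (m / p) ^ 2 * om ^ 2 / (16 * be) ≤ s0 * (om / be) * (1 - 2 * (m * be)) :=
            small_two (by positivity) ((div_le_one hp).2 hmp) h0 hom12.le hbed hs0mu (by linarith)
          linarith [h.2]
      · have hno : 0 ≤ p * x - m * om * (x / (p + be * x)) := by
          rcases hcorr with h | h
          · exact h.2
          · exfalso
            obtain ⟨_, h3⟩ := hsmall h.1
            nlinarith
        have h7 : om / be ^ 2 * (1 - 2 * (m * be)) ≤ s0 * (om / be) * (1 - 2 * (m * be)) := by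
          have : om / be ^ 2 * (2 * (m * be) - 1) ≥ s0 * (om / be) * (2 * (m * be) - 1) := by
            apply mul_le_mul_of_nonneg_right _ (by linarith)
            have : om / be ^ 2 = 1 / be * (om / be) := by field_simp
            rw [this]
            gcongr
            rw [le_div_iff₀ hbe0]; linarith
          linarith
        have h8 := quad_three (m := m) h0 hbe0 (by rw [hbed]; ring)
        linarith

end Pool.Agent.RatMin
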