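import Mathlib
import Pool.Agent.Lib_helper36.Rat.MinTwo

/-!
Type G3, system (II): the minimum principle with one extra constraint, and the corner.
-/

set_option autoImplicit false

namespace Pool.Agent.RatG3

open Pool.Agent.RatMin

section basic

variable {om : ℝ}

lemma rho_le_div (h0 : 0 < om) (h1 : om < 1) {v : ℝ} (hv : 0 ≤ v) : rho om v ≤ v / om := by
  unfold rho
  apply div_le_div_of_nonneg_left hv h0
  have : 0 ≤ (1 - om) * v := mul_nonneg (by linarith) hv
  linarith

lemma rho_le_one_div (h0 : 0 < om) (h1 : om < 1) {v : ℝ} (hv : 0 ≤ v) :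
    rho om v ≤ 1 / (1 - om) := by
  rw [le_div_iff₀ (by linarith)]
  have := rho_le h0 h1 hv
  linarith

lemma rho_sub_le (h0 : 0 < om) (h1 : om < 1) {v w : ℝ} (hv : 0 ≤ v) (hvw : v ≤ w) :
    om * (rho om w - rho om v) ≤ w - v := by
  have e : w = v + (w - v) := by ring
  have h2 : rho om w ≤ rho om v + rho om (w - v) := by
    conv_lhs => rw [e]
    exact rho_add_le h0 h1 hv (by linarith)
  have h3 : rho om (w - v) ≤ (w - v) / om := rho_le_div h0 h1 (by linarith)
  rw [le_div_iff₀ h0] at h3
  nlinarith

variable {A p m y1 y2 y3 : ℝ}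

/-- subadditivity in the case `be ≤ om` -/
lemma step_iii (h0 : 0 < om) (h1 : om < 1) (hA : 0 ≤ A) (hp : 0 < p) (hm : 0 ≤ m)
    (hy1 : m ≤ y1) (hy2 : m ≤ y2) (hy3 : m ≤ y3) (h : 1 - om ≤ om) :
    rho om ((A + om * y1 + (1 - om) * y2) / p) ≤
      rho om ((A + om * y2 + (1 - om) * y3) / p) + (y1 - m) / p := by
  have hbe : 0 < 1 - om := by linarith
  have e1 : (A + om * y1 + (1 - om) * y2) / p =
      (A + m + (1 - om) * (y2 - m)) / p + om * (y1 - m) / p := by
    field_simp; ring
  have h2 : 0 ≤ (A + m + (1 - om) * (y2 - m)) / p := by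
    have : 0 ≤ (1 - om) * (y2 - m) := mul_nonneg hbe.le (by linarith)
    positivity
  have h3 : 0 ≤ om * (y1 - m) / p := by
    have : 0 ≤ y1 - m := by linarith
    positivity
  have h4 : rho om (om * (y1 - m) / p) ≤ (y1 - m) / p := by
    have := rho_le_div h0 h1 h3
    calc rho om (om * (y1 - m) / p) ≤ om * (y1 - m) / p / om := this
      _ = (y1 - m) / p := by field_simp
  have h5 : rho om ((A + m + (1 - om) * (y2 - m)) / p) ≤
      rho om ((A + om * y2 + (1 - om) * y3) / p) := by
    apply rho_mono h0 h1 h2
    rw [div_le_div_iff_of_pos_right hp]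
    have b1 : (1 - om) * (y2 - m) ≤ om * (y2 - m) := mul_le_mul_of_nonneg_right h (by linarith)
    have b2 : (1 - om) * m ≤ (1 - om) * y3 := mul_le_mul_of_nonneg_left hy3 hbe.le
    nlinarith
  rw [e1]
  calc _ ≤ _ := rho_add_le h0 h1 h2 h3
    _ ≤ _ := add_le_add h5 h4

/-- subadditivity in the case `om ≤ be` -/
lemma step_ii (h0 : 0 < om) (h1 : om < 1) (hA : 0 ≤ A) (hp : 0 < p) (hm : 0 ≤ m)
    (hy1 : m ≤ y1) (hy2 : m ≤ y2) (hy3 : m ≤ y3) (h : om ≤ 1 - om) :
    om * rho om ((A + om * y1 + (1 - om) * y2) / p) ≤
      (1 - om) * rho om ((A + om * y2 + (1 - om) * y3) / p) + om * ((y1 - m) / p) := by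
  have hbe : 0 < 1 - om := by linarith
  have e1 : (A + om * y1 + (1 - om) * y2) / p =
      (A + m + (1 - om) * (y2 - m)) / p + om * (y1 - m) / p := by
    field_simp; ring
  have h2 : 0 ≤ (A + m + (1 - om) * (y2 - m)) / p := by
    have : 0 ≤ (1 - om) * (y2 - m) := mul_nonneg hbe.le (by linarith)
    positivity
  have h3 : 0 ≤ om * (y1 - m) / p := by
    have : 0 ≤ y1 - m := by linarith
    positivity
  have h4 : rho om (om * (y1 - m) / p) ≤ (y1 - m) / p := by
    have := rho_le_div h0 h1 h3
    calc rho om (om * (y1 - m) / p) ≤ om * (y1 - m) / p / om := this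
      _ = (y1 - m) / p := by field_simp
  have hlam : om / (1 - om) ≤ 1 := by rw [div_le_one hbe]; exact h
  have h5 : om / (1 - om) * rho om ((A + m + (1 - om) * (y2 - m)) / p) ≤
      rho om ((A + om * y2 + (1 - om) * y3) / p) := by
    refine (rho_smul_ge h0 h1 h2 (by positivity) hlam).trans ?_
    apply rho_mono h0 h1 (by positivity)
    rw [← mul_div_assoc, div_le_div_iff_of_pos_right hp]
    have e : om / (1 - om) * (A + m + (1 - om) * (y2 - m)) =
        om / (1 - om) * (A + m) + om * (y2 - m) := by
      field_simp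
    rw [e]
    have b1 : om / (1 - om) * (A + m) ≤ 1 * (A + m) :=
      mul_le_mul_of_nonneg_right hlam (by positivity)
    have b2 : (1 - om) * m ≤ (1 - om) * y3 := mul_le_mul_of_nonneg_left hy3 hbe.le
    nlinarith
  have h6 : om * rho om ((A + m + (1 - om) * (y2 - m)) / p) ≤
      (1 - om) * rho om ((A + om * y2 + (1 - om) * y3) / p) := by
    have := mul_le_mul_of_nonneg_left h5 hbe.le
    calc om * rho om ((A + m + (1 - om) * (y2 - m)) / p)
        = (1 - om) * (om / (1 - om) * rho om ((A + m + (1 - om) * (y2 - m)) / p)) := by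
          field_simp
      _ ≤ _ := this
  rw [e1]
  have h7 := rho_add_le h0 h1 h2 h3
  have h8 := mul_le_mul_of_nonneg_left h7 h0.le
  have h9 := mul_le_mul_of_nonneg_left h4 h0.le
  nlinarith

end basic

/-- The key inequality of system (II), with a uniform positive gap. -/
theorem keyII {om A p m : ℝ} (h0 : 0 < om) (h1 : om < 1) (hA : 0 ≤ A) (hm : 0 < m)
    (hmd : m ≤ p - A) (hp2 : m * om ≤ p ^ 2) :
    ∃ g, 0 < g ∧ ∀ y1 y2 y3 : ℝ, m ≤ y1 → m ≤ y2 → m ≤ y3 →
      p * y2 ≤ y1 * (A + 1 / (1 - om)) →
      g ≤ rho om ((A + om * y2 + (1 - om) * y3) / p) + p * y1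
        - m * (A + om * rho om ((A + om * y1 + (1 - om) * y2) / p)
            + (1 - om) * rho om ((A + om * y2 + (1 - om) * y3) / p)) := by
  have hbe : 0 < 1 - om := by linarith
  have hp : 0 < p := by linarith
  -- generic facts
  have hgen : ∀ y1 y2 : ℝ, m ≤ y1 → m ≤ y2 → 0 < (A + om * y1 + (1 - om) * y2) / p := by
    intro y1 y2 h h'
    have : 0 < y1 := by linarith
    have : 0 < y2 := by linarith
    positivity
  have hpm : m ≤ p := by linarith
  have hmd2 : m ^ 2 ≤ m * (p - A) := by nlinarith
  rcases lt_or_ge 1 (m * (1 - om)) with hi | hi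
  · -- case (i)
    refine ⟨1, one_pos, ?_⟩
    intro y1 y2 y3 hy1 hy2 hy3 _
    set s := rho om ((A + om * y1 + (1 - om) * y2) / p)
    set t := rho om ((A + om * y2 + (1 - om) * y3) / p)
    have hs : s ≤ 1 / (1 - om) := rho_le_one_div h0 h1 (hgen _ _ hy1 hy2).le
    have ht : t ≤ 1 / (1 - om) := rho_le_one_div h0 h1 (hgen _ _ hy2 hy3).le
    have a1 : m * om * s ≤ m * om * (1 / (1 - om)) := mul_le_mul_of_nonneg_left hs (by positivity)
    have a2 : (m * (1 - om) - 1) * t ≤ (m * (1 - om) - 1) * (1 / (1 - om)) :=
      mul_le_mul_of_nonneg_left ht (by linarith)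
    have a3 : m * om * (1 / (1 - om)) + (m * (1 - om) - 1) * (1 / (1 - om)) = (m - 1) / (1 - om) := by
      field_simp; ring
    have a4 : p * m ≤ p * y1 := mul_le_mul_of_nonneg_left hy1 hp.le
    have a5 : 1 ≤ m ^ 2 - (m - 1) / (1 - om) := by
      have e : m ^ 2 - (m - 1) / (1 - om) = (m * (m * (1 - om) - 1) + 1) / (1 - om) := by
        field_simp; ring
      rw [e, le_div_iff₀ hbe]
      nlinarith [mul_pos hm (by linarith : 0 < m * (1 - om) - 1)]
    nlinarith
  rcases lt_or_ge om (1 - om) with hii | hii
  · -- case (ii)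
    refine ⟨min (m ^ 2) (om / (1 - om)), lt_min (by positivity) (by positivity), ?_⟩
    intro y1 y2 y3 hy1 hy2 hy3 _
    have hstep := step_ii h0 h1 hA hp hm.le hy1 hy2 hy3 hii.le
    set s := rho om ((A + om * y1 + (1 - om) * y2) / p)
    set t := rho om ((A + om * y2 + (1 - om) * y3) / p)
    have ht : t ≤ 1 / (1 - om) := rho_le_one_div h0 h1 (hgen _ _ hy2 hy3).le
    have ht0 : 0 ≤ t := rho_nonneg h0 h1 (hgen _ _ hy2 hy3).le
    have a1 : m * (om * s) ≤ m * ((1 - om) * t + om * ((y1 - m) / p)) :=
      mul_le_mul_of_nonneg_left hstep hm.le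
    have a2 : m * om * ((y1 - m) / p) ≤ p * (y1 - m) := by
      rw [← mul_div_assoc, div_le_iff₀ hp]
      nlinarith
    have a3 : t * (1 - 2 * (m * (1 - om))) + m * (p - A) ≤
        t + p * y1 - m * (A + om * s + (1 - om) * t) := by nlinarith
    refine le_trans ?_ a3
    rcases le_or_gt (2 * (m * (1 - om))) 1 with h | h
    · refine (min_le_left _ _).trans ?_
      have : 0 ≤ t * (1 - 2 * (m * (1 - om))) := mul_nonneg ht0 (by linarith)
      linarith
    · refine (min_le_right _ _).trans ?_
      have a4 : (2 * (m * (1 - om)) - 1) * t ≤ (2 * (m * (1 - om)) - 1) * (1 / (1 - om)) :=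
        mul_le_mul_of_nonneg_left ht (by linarith)
      have a5 : (2 * (m * (1 - om)) - 1) * (1 / (1 - om)) = 2 * m - 1 - om / (1 - om) := by
        field_simp; ring
      nlinarith [sq_nonneg (m - 1)]
  · -- case (iii), (iv)
    rcases le_or_gt m 1 with hm1 | hm1
    · refine ⟨m ^ 2, by positivity, ?_⟩
      intro y1 y2 y3 hy1 hy2 hy3 _
      have hstep := step_iii h0 h1 hA hp hm.le hy1 hy2 hy3 hii
      set s := rho om ((A + om * y1 + (1 - om) * y2) / p)
      set t := rho om ((A + om * y2 + (1 - om) * y3) / p)
      have ht0 : 0 ≤ t := rho_nonneg h0 h1 (hgen _ _ hy2 hy3).le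
      have a1 : m * om * s ≤ m * om * (t + (y1 - m) / p) :=
        mul_le_mul_of_nonneg_left hstep (by positivity)
      have a2 : m * om * ((y1 - m) / p) ≤ p * (y1 - m) := by
        rw [← mul_div_assoc, div_le_iff₀ hp]
        nlinarith
      have a3 : 0 ≤ t * (1 - m) := mul_nonneg ht0 (by linarith)
      nlinarith
    · rcases le_or_gt (3 / 10) (1 - om) with hb | hb
      · refine ⟨1 / 2, by norm_num, ?_⟩
        intro y1 y2 y3 hy1 hy2 hy3 _
        have hstep := step_iii h0 h1 hA hp hm.le hy1 hy2 hy3 hii
        set s := rho om ((A + om * y1 + (1 - om) * y2) / p)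
        set t := rho om ((A + om * y2 + (1 - om) * y3) / p)
        have ht0 : 0 ≤ t := rho_nonneg h0 h1 (hgen _ _ hy2 hy3).le
        have ht : t ≤ 1 / (1 - om) := rho_le_one_div h0 h1 (hgen _ _ hy2 hy3).le
        have a1 : m * om * s ≤ m * om * (t + (y1 - m) / p) :=
          mul_le_mul_of_nonneg_left hstep (by positivity)
        have a2 : m * om * ((y1 - m) / p) ≤ p * (y1 - m) := by
          rw [← mul_div_assoc, div_le_iff₀ hp]
          nlinarith
        have a3 : (m - 1) * t ≤ (m - 1) * (1 / (1 - om)) :=
          mul_le_mul_of_nonneg_left ht (by linarith)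
        have a4 : 1 / (1 - om) ≤ 10 / 3 := by
          rw [div_le_iff₀ hbe]; linarith
        have a5 : (m - 1) * (1 / (1 - om)) ≤ (m - 1) * (10 / 3) :=
          mul_le_mul_of_nonneg_left a4 (by linarith)
        nlinarith [sq_nonneg (m - 5 / 3)]
      · refine ⟨1 / 2, by norm_num, ?_⟩
        intro y1 y2 y3 hy1 hy2 hy3 hc
        have hom7 : 7 / 10 < om := by linarith
        have hstep := step_iii h0 h1 hA hp hm.le hy1 hy2 hy3 hii
        have hsdiv : rho om ((A + om * y1 + (1 - om) * y2) / p) ≤
            (A + om * y1 + (1 - om) * y2) / p / om := rho_le_div h0 h1 (hgen _ _ hy1 hy2).le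
        have hmono : (A + om * y2 + (1 - om) * y3) / p ≤ (A + om * y1 + (1 - om) * y2) / p ∨
            rho om ((A + om * y1 + (1 - om) * y2) / p) ≤
              rho om ((A + om * y2 + (1 - om) * y3) / p) := by
          rcases le_total ((A + om * y2 + (1 - om) * y3) / p)
            ((A + om * y1 + (1 - om) * y2) / p) with h | h
          · exact Or.inl h
          · exact Or.inr (rho_mono h0 h1 (hgen _ _ hy1 hy2).le h)
        have htm : (A + om * y2 + (1 - om) * y3) / p ≤ (A + om * y1 + (1 - om) * y2) / p →
            rho om ((A + om * y2 + (1 - om) * y3) / p) ≤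
              rho om ((A + om * y1 + (1 - om) * y2) / p) :=
          fun h => rho_mono h0 h1 (hgen _ _ hy2 hy3).le h
        have ht0 : 0 ≤ rho om ((A + om * y2 + (1 - om) * y3) / p) :=
          rho_nonneg h0 h1 (hgen _ _ hy2 hy3).le
        set s := rho om ((A + om * y1 + (1 - om) * y2) / p)
        set t := rho om ((A + om * y2 + (1 - om) * y3) / p)
        have hx : 0 ≤ y1 - m := by linarith
        have hpm1 : 1 ≤ p := by linarith
        rcases hmono with h | h
        · -- t ≤ s
          have hts := htm h
          rw [div_le_div_iff_of_pos_right hp] at h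
          have hy21 : (2 * om - 1) * y2 ≤ om * y1 := by
            have : 0 ≤ (1 - om) * y3 := mul_nonneg hbe.le (by linarith)
            nlinarith
          -- s p om ≤ A + om y1 + be y2
          have hs1 : s * (p * om) ≤ A + om * y1 + (1 - om) * y2 := by
            rw [div_div, le_div_iff₀ (by positivity)] at hsdiv
            exact hsdiv
          -- multiply by (2 om - 1)
          have h21 : 0 < 2 * om - 1 := by linarith
          have hs2 : s * (p * om) * (2 * om - 1) ≤ A * (2 * om - 1) + om ^ 2 * y1 := by
            have q1 := mul_le_mul_of_nonneg_right hs1 h21.le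
            have q2 := mul_le_mul_of_nonneg_left hy21 hbe.le
            nlinarith
          have ht2 : t * (p * om) * (2 * om - 1) ≤ A * (2 * om - 1) + om ^ 2 * y1 := by
            have : t * (p * om) * (2 * om - 1) ≤ s * (p * om) * (2 * om - 1) := by
              apply mul_le_mul_of_nonneg_right _ h21.le
              exact mul_le_mul_of_nonneg_right hts (by positivity)
            linarith
          -- K = om/(2om-1) ; t p ≤ K (A + y1)
          have ht3 : t * p * (2 * om - 1) ≤ om * (A + y1) := by
            have : t * (p * om) * (2 * om - 1) ≤ om * (om * (A + y1)) := by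
              have : A * (2 * om - 1) ≤ A * om ^ 2 := by
                apply mul_le_mul_of_nonneg_left _ hA
                nlinarith [sq_nonneg (om - 1)]
              nlinarith
            have e : t * (p * om) * (2 * om - 1) = om * (t * p * (2 * om - 1)) := by ring
            rw [e] at this
            exact le_of_mul_le_mul_left this h0
          have ht4 : t * p ≤ (7 / 2 - 5 / 2 * om) * (A + y1) := by
            have q : om * (A + y1) ≤ (7 / 2 - 5 / 2 * om) * (2 * om - 1) * (A + y1) := by
              apply mul_le_mul_of_nonneg_right _ (by linarith)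
              nlinarith [mul_nonneg (by linarith : 0 ≤ om - 7 / 10) hbe.le]
            have q2 : (t * p) * (2 * om - 1) ≤ ((7 / 2 - 5 / 2 * om) * (A + y1)) * (2 * om - 1) := by
              nlinarith
            exact le_of_mul_le_mul_right q2 h21
          set K := 7 / 2 - 5 / 2 * om with hK
          have hK1 : K ≤ 7 / 4 := by rw [hK]; linarith
          have hK2 : 1 ≤ K := by rw [hK]; linarith
          -- t ≤ K + K (y1-m)/p
          have ht5 : t ≤ K + K * ((y1 - m) / p) := by
            have : t * p ≤ (K + K * ((y1 - m) / p)) * p := by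
              have e : (K + K * ((y1 - m) / p)) * p = K * p + K * (y1 - m) := by field_simp
              rw [e]
              have : K * (A + m) ≤ K * p := mul_le_mul_of_nonneg_left (by linarith) (by linarith)
              nlinarith
            exact le_of_mul_le_mul_right this hp
          have a1 : m * om * s ≤ m * om * (t + (y1 - m) / p) :=
            mul_le_mul_of_nonneg_left hstep (by positivity)
          have a2 : (m - 1) * t ≤ (m - 1) * (K + K * ((y1 - m) / p)) :=
            mul_le_mul_of_nonneg_left ht5 (by linarith)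
          have a3 : (m * om + (m - 1) * K) * ((y1 - m) / p) ≤ p * (y1 - m) := by
            rw [← mul_div_assoc, div_le_iff₀ hp]
            have : m * om + (m - 1) * K ≤ p * p := by
              have q1 : m * m ≤ p * p := by nlinarith
              have q2 : m * om + (m - 1) * K ≤ m * m := by
                have e : m * m - (m * om + (m - 1) * K) =
                    (10 / 3) * ((om - 7 / 10) * (m - 1) ^ 2
                      + (1 - om) * (m ^ 2 - 49 / 20 * m + 7 / 4)) := by
                  rw [hK]; ring
                have q3 : 0 ≤ m ^ 2 - 49 / 20 * m + 7 / 4 := by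
                  nlinarith [sq_nonneg (m - 49 / 40)]
                have q4 : 0 ≤ (om - 7 / 10) * (m - 1) ^ 2 := by
                  apply mul_nonneg (by linarith) (sq_nonneg _)
                have q5 := mul_nonneg hbe.le q3
                linarith
              linarith
            nlinarith
          have a6 : (m - 1) * K ≤ (m - 1) * (7 / 4) :=
            mul_le_mul_of_nonneg_left hK1 (by linarith)
          nlinarith
        · -- s ≤ t
          have hAb : 1 + A * (1 - om) ≤ p := by nlinarith
          have hy2 : (1 - om) * y2 ≤ y1 := by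
            have q1 : (1 - om) * (p * y2) ≤ y1 * (A * (1 - om) + 1) := by
              have := mul_le_mul_of_nonneg_left hc hbe.le
              have e : (1 - om) * (y1 * (A + 1 / (1 - om))) = y1 * (A * (1 - om) + 1) := by
                field_simp
              rw [e] at this
              exact this
            have q2 : y1 * (A * (1 - om) + 1) ≤ y1 * p :=
              mul_le_mul_of_nonneg_left (by linarith) (by linarith)
            have q3 : ((1 - om) * y2) * p ≤ y1 * p := by nlinarith
            exact le_of_mul_le_mul_right q3 hp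
          have hs1 : s * (p * om) ≤ A + om * y1 + (1 - om) * y2 := by
            rw [div_div, le_div_iff₀ (by positivity)] at hsdiv
            exact hsdiv
          -- s p om ≤ (1+om)(A+y1)
          have hs2 : s * p ≤ 17 / 7 * (A + y1) := by
            have q1 : s * (p * om) ≤ om * (17 / 7 * (A + y1)) := by
              have : A + om * y1 + y1 ≤ om * (17 / 7 * (A + y1)) := by
                nlinarith
              linarith
            have e : s * (p * om) = om * (s * p) := by ring
            rw [e] at q1
            exact le_of_mul_le_mul_left q1 h0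
          have hs5 : s ≤ 17 / 7 + 17 / 7 * ((y1 - m) / p) := by
            have : s * p ≤ (17 / 7 + 17 / 7 * ((y1 - m) / p)) * p := by
              have e : (17 / 7 + 17 / 7 * ((y1 - m) / p)) * p = 17 / 7 * p + 17 / 7 * (y1 - m) := by
                field_simp
              rw [e]
              linarith
            exact le_of_mul_le_mul_right this hp
          have a1 : (1 - m * (1 - om)) * s ≤ (1 - m * (1 - om)) * t :=
            mul_le_mul_of_nonneg_left h (by linarith)
          have a2 : (m - 1) * s ≤ (m - 1) * (17 / 7 + 17 / 7 * ((y1 - m) / p)) :=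
            mul_le_mul_of_nonneg_left hs5 (by linarith)
          have a3 : ((m - 1) * (17 / 7)) * ((y1 - m) / p) ≤ p * (y1 - m) := by
            rw [← mul_div_assoc, div_le_iff₀ hp]
            have : (m - 1) * (17 / 7) ≤ p * p := by
              have q1 : m * m ≤ p * p := by nlinarith
              nlinarith [sq_nonneg (m - 17 / 14)]
            nlinarith
          nlinarith [sq_nonneg (m - 17 / 14)]

/-- The corner `p ^ 2 < om * M`. -/
theorem cornerII {om A p : ℝ} (h0 : 0 < om) (h1 : om < 1) (hA : 0 ≤ A) (hp : 0 < p)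
    (hpom : p < om) (hX : A + p ^ 2 / om ≤ p) {y0 y1 y2 y3 : ℝ}
    (hy1 : p ^ 2 / om ≤ y1) (hy2 : p ^ 2 / om ≤ y2) (hy3 : p ^ 2 / om ≤ y3)
    {s t x v0 : ℝ} (hx : x = (A + om * y1 + (1 - om) * y2) / p)
    (hs : s = rho om x) (ht : t = rho om ((A + om * y2 + (1 - om) * y3) / p))
    (hv0 : v0 * p = A + om * y0 + (1 - om) * y1)
    (hrec : t + p * y1 ≤ y0 * (A + om * s + (1 - om) * t)) :
    p ^ 2 * ((A + p ^ 2 / om) / p) / (A + 1 / (1 - om)) ≤ v0 * x - 1 := by
  have hbe : 0 < 1 - om := by linarith
  set mu := p ^ 2 / om with hmu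
  have hmu0 : 0 < mu := by positivity
  set X0 := (A + mu) / p with hX0
  have hX0pos : 0 < X0 := by positivity
  have hX01 : X0 ≤ 1 := by rw [hX0, div_le_one hp]; exact hX
  have hX0x : X0 ≤ x := by
    rw [hX0, hx, div_le_div_iff_of_pos_right hp]
    have a1 := mul_le_mul_of_nonneg_left hy1 h0.le
    have a2 := mul_le_mul_of_nonneg_left hy2 hbe.le
    nlinarith
  have hX0v2 : X0 ≤ (A + om * y2 + (1 - om) * y3) / p := by
    rw [hX0, div_le_div_iff_of_pos_right hp]
    have a1 := mul_le_mul_of_nonneg_left hy2 h0.le
    have a2 := mul_le_mul_of_nonneg_left hy3 hbe.le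
    nlinarith
  set t0 := rho om X0 with ht0
  have ht0X : X0 ≤ t0 := le_rho h0 h1 hX0pos.le hX01
  have ht0p : 0 < t0 := lt_of_lt_of_le hX0pos ht0X
  have ht0t : t0 ≤ t := by rw [ht]; exact rho_mono h0 h1 hX0pos.le hX0v2
  have ht0s : t0 ≤ s := by rw [hs]; exact rho_mono h0 h1 hX0pos.le hX0x
  have hst0 : om * (s - t0) ≤ x - X0 := by
    rw [hs]; exact rho_sub_le h0 h1 hX0pos.le hX0x
  have hxp : 0 < x := lt_of_lt_of_le hX0pos hX0x
  have hsle : s ≤ 1 / (1 - om) := by rw [hs]; exact rho_le_one_div h0 h1 hxp.le
  have htle : t ≤ 1 / (1 - om) := by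
    rw [ht]; exact rho_le_one_div h0 h1 (hX0pos.le.trans hX0v2)
  have hs0 : 0 < s := by linarith
  have htp : 0 < t := by linarith
  have hy1p : 0 < y1 := by linarith
  set E := A + om * s + (1 - om) * t with hE
  have hE0 : 0 < E := by
    have := mul_pos h0 hs0
    have := mul_pos hbe htp
    rw [hE]; linarith
  have hEle : E ≤ A + 1 / (1 - om) := by
    have a1 := mul_le_mul_of_nonneg_left hsle h0.le
    have a2 := mul_le_mul_of_nonneg_left htle hbe.le
    rw [hE]; nlinarith
  -- om * X0 = om A / p + p
  have hoX : om * X0 * p = om * A + p ^ 2 := by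
    rw [hX0, hmu]; field_simp
  have hoX1 : p ≤ om * X0 := by
    have : p * p ≤ om * X0 * p := by
      rw [hoX]
      have := mul_nonneg h0.le hA
      nlinarith
    exact le_of_mul_le_mul_right this hp
  have hot0 : p ≤ om * t0 := by
    have := mul_le_mul_of_nonneg_left ht0X h0.le
    linarith
  have hox : p ≤ om * x := by
    have := mul_le_mul_of_nonneg_left hX0x h0.le
    linarith
  -- step 1 : v0 * x * p * E - p E ≥ Xi
  have hXi : x * ((A + (1 - om) * y1) * E + om * (t + p * y1)) - p * E ≤ (v0 * x - 1) * (p * E) := by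
    have e : v0 * x * (p * E) = x * E * (v0 * p) := by ring
    have q : om * (t + p * y1) ≤ om * (y0 * E) := mul_le_mul_of_nonneg_left hrec h0.le
    have q2 := mul_le_mul_of_nonneg_left q hxp.le
    have e2 : (v0 * x - 1) * (p * E) = x * E * (v0 * p) - p * E := by rw [← e]; ring
    rw [e2, hv0]
    nlinarith
  -- step 2 : lower bound of Xi
  have hXi2 : p ^ 3 * X0 ≤ x * ((A + (1 - om) * y1) * E + om * (t + p * y1)) - p * E := by
    -- drop y1
    have hoy : p ^ 3 ≤ om * (p * y1) := by
      have : p ^ 2 ≤ om * y1 := by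
        have := mul_le_mul_of_nonneg_left hy1 h0.le
        rw [hmu] at this
        have e : om * (p ^ 2 / om) = p ^ 2 := by field_simp
        rw [e] at this
        exact this
      nlinarith
    have b1 : x * (A * E + om * t + p ^ 3) ≤ x * ((A + (1 - om) * y1) * E + om * (t + p * y1)) := by
      apply mul_le_mul_of_nonneg_left _ hxp.le
      have : 0 ≤ (1 - om) * y1 * E := by positivity
      nlinarith
    -- replace t by t0
    set E1 := A + om * s + (1 - om) * t0 with hE1
    have b2 : x * (A * E1 + om * t0 + p ^ 3) - p * E1 ≤ x * (A * E + om * t + p ^ 3) - p * E := by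
      have e : x * (A * E + om * t + p ^ 3) - p * E - (x * (A * E1 + om * t0 + p ^ 3) - p * E1) =
          (t - t0) * (x * A * (1 - om) + om * x - p * (1 - om)) := by
        rw [hE, hE1]; ring
      have q1 : 0 ≤ x * A * (1 - om) + om * x - p * (1 - om) := by
        have : 0 ≤ x * A * (1 - om) := by positivity
        have : p * (1 - om) ≤ p := by nlinarith
        linarith
      have q2 := mul_nonneg (sub_nonneg.2 ht0t) q1
      linarith
    -- replace x by X0 and s by t0
    have b3 : X0 * (A * (A + t0) + om * t0 + p ^ 3) - p * (A + t0) ≤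
        x * (A * E1 + om * t0 + p ^ 3) - p * E1 := by
      have c1 : A + t0 ≤ E1 := by
        rw [hE1]
        have := mul_le_mul_of_nonneg_left ht0s h0.le
        nlinarith
      have c2 : X0 * (A * (A + t0)) ≤ x * (A * E1) := by
        apply mul_le_mul hX0x _ (by positivity) hxp.le
        exact mul_le_mul_of_nonneg_left c1 hA
      have c3 : X0 * p ^ 3 ≤ x * p ^ 3 := mul_le_mul_of_nonneg_right hX0x (by positivity)
      have c4 : p * (om * (s - t0)) ≤ (x - X0) * (om * t0) := by
        have q1 := mul_le_mul_of_nonneg_left hst0 hp.le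
        have q2 := mul_le_mul_of_nonneg_left hot0 (sub_nonneg.2 hX0x)
        nlinarith
      have e : p * E1 = p * (A + t0) + p * (om * (s - t0)) := by rw [hE1]; ring
      rw [e]
      nlinarith
    have b4 : p ^ 3 * X0 ≤ X0 * (A * (A + t0) + om * t0 + p ^ 3) - p * (A + t0) := by
      -- om X0 t0 - p t0 = t0 om A / p
      have c1 : (om * X0 - p) * t0 * p = om * t0 * A := by
        have : (om * X0 - p) * p = om * A := by nlinarith
        calc (om * X0 - p) * t0 * p = ((om * X0 - p) * p) * t0 := by ring
          _ = om * A * t0 := by rw [this]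
          _ = _ := by ring
      have c2 : A ≤ (om * X0 - p) * t0 := by
        have : A * p ≤ (om * X0 - p) * t0 * p := by
          rw [c1]
          nlinarith
        exact le_of_mul_le_mul_right this hp
      have c3 : 0 ≤ X0 * (A * (A + t0)) := by positivity
      have c4 : p * A ≤ A := by nlinarith
      nlinarith
    linarith
  have h3 : p ^ 3 * X0 ≤ (v0 * x - 1) * (p * E) := hXi2.trans hXi
  have h4 : p ^ 2 * X0 ≤ (v0 * x - 1) * E := by
    have : (p ^ 2 * X0) * p ≤ ((v0 * x - 1) * E) * p := by nlinarith
    exact le_of_mul_le_mul_right this hp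
  have h5 : 0 < v0 * x - 1 := by
    by_contra hcon
    push Not at hcon
    have : 0 < p ^ 2 * X0 := by positivity
    nlinarith
  rw [div_le_iff₀ (by positivity)]
  have := mul_le_mul_of_nonneg_left hEle h5.le
  linarith

/-- System (II): either all gains are uniformly larger than one, or all products of two
consecutive gains are. -/
theorem II_gain {om be A p : ℝ} (hom : 0 < om) (hbe : 0 < be) (hs : om + be = 1) (hA : 0 ≤ A)
    (hp : 0 < p) (_hpA : A ≤ p) {y v r : ℕ → ℝ} (hy : ∀ j, 0 ≤ y j) (hvp : ∀ j, 0 < v j)
    (hv : ∀ j, v j * p = A + om * y j + be * y (j + 1))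
    (hr : ∀ j, r j * (om + be * v (j + 1)) = v (j + 1))
    (hrec : ∀ j, r (j + 1) + p * y (j + 1) ≤ y j * (A + om * r j + be * r (j + 1))) :
    ∃ d > 0, (∀ j, 1 + d ≤ v j) ∨ (∀ j, 1 + d ≤ v j * v (j + 1)) := by
  obtain rfl : be = 1 - om := by linarith
  have h1 : om < 1 := by linarith
  have hv' : ∀ j, v j = (A + om * y j + (1 - om) * y (j + 1)) / p := by
    intro j; rw [eq_div_iff hp.ne']; exact hv j
  have hr' : ∀ j, r j = rho om (v (j + 1)) := by
    intro j
    unfold rho
    rw [eq_div_iff (rho_den_pos hom h1 (hvp _).le).ne']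
    exact hr j
  have hr0 : ∀ j, 0 < r j := by
    intro j; rw [hr' j]; exact rho_pos hom h1 (hvp _)
  have hrle : ∀ j, r j ≤ 1 / (1 - om) := by
    intro j; rw [hr' j]; exact rho_le_one_div hom h1 (hvp _).le
  have hE : ∀ j, A + om * r j + (1 - om) * r (j + 1) ≤ A + 1 / (1 - om) := by
    intro j
    have a1 := mul_le_mul_of_nonneg_left (hrle j) hom.le
    have a2 := mul_le_mul_of_nonneg_left (hrle (j + 1)) hbe.le
    nlinarith
  have hEpos : ∀ j, 0 < A + om * r j + (1 - om) * r (j + 1) := by
    intro j
    have := mul_pos hom (hr0 j)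
    have := mul_pos hbe (hr0 (j + 1))
    linarith
  -- a priori bound
  set C := p * om + (1 - om) * A + 1 + (1 - om) + om / p ^ 2 with hC
  have hCpos : 0 < C := by
    rw [hC]
    have := mul_pos hp hom
    have := mul_nonneg hbe.le hA
    have : 0 < om / p ^ 2 := by positivity
    linarith
  have hlow : ∀ j, 1 / C ≤ y j := by
    intro j
    -- om r_j ≤ om y_{j+1}/p + r_{j+1}
    have a1 : om * r j ≤ r (j + 1) + om * (y (j + 1) / p) := by
      rw [hr' j, hr' (j + 1), hv' (j + 1), hv' (j + 1 + 1)]
      have hy1 := hy (j + 1)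
      have hy2 := hy (j + 1 + 1)
      have hy3 := hy (j + 1 + 1 + 1)
      set y1 := y (j + 1)
      set y2 := y (j + 1 + 1)
      set y3 := y (j + 1 + 1 + 1)
      have e1 : (A + om * y1 + (1 - om) * y2) / p = (A + (1 - om) * y2) / p + om * y1 / p := by
        field_simp; ring
      have g1 : 0 ≤ (A + (1 - om) * y2) / p := by positivity
      have g2 : 0 ≤ om * y1 / p := by positivity
      have g3 : rho om (om * y1 / p) ≤ y1 / p := by
        have := rho_le_div hom h1 g2
        calc rho om (om * y1 / p) ≤ om * y1 / p / om := this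
          _ = y1 / p := by field_simp
      have g4 : om * rho om ((A + (1 - om) * y2) / p) ≤ rho om ((A + om * y2 + (1 - om) * y3) / p) := by
        refine (rho_smul_ge hom h1 g1 hom.le h1.le).trans ?_
        apply rho_mono hom h1 (by positivity)
        rw [← mul_div_assoc, div_le_div_iff_of_pos_right hp]
        have q1 : om * A ≤ A := by nlinarith
        have q2 : om * ((1 - om) * y2) ≤ om * y2 := by
          apply mul_le_mul_of_nonneg_left _ hom.le
          nlinarith
        have q3 : 0 ≤ (1 - om) * y3 := by positivity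
        nlinarith
      rw [e1]
      have g5 := mul_le_mul_of_nonneg_left (rho_add_le hom h1 g1 g2) hom.le
      have g6 := mul_le_mul_of_nonneg_left g3 hom.le
      nlinarith
    have a2 : A ≤ (p * om + (1 - om) * A) * r (j + 1) := by
      have hK : 0 < p * om + (1 - om) * A := by
        have := mul_pos hp hom
        have := mul_nonneg hbe.le hA
        linarith
      have g1 : rho om (A / p) ≤ r (j + 1) := by
        rw [hr' (j + 1), hv' (j + 1 + 1)]
        apply rho_mono hom h1 (by positivity)
        rw [div_le_div_iff_of_pos_right hp]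
        have q1 := mul_nonneg hom.le (hy (j + 1 + 1))
        have q2 := mul_nonneg hbe.le (hy (j + 1 + 1 + 1))
        linarith
      have g2 : rho om (A / p) = A / (p * om + (1 - om) * A) := by
        unfold rho
        field_simp
      rw [g2, div_le_iff₀ hK] at g1
      linarith
    have a3 : A + om * r j + (1 - om) * r (j + 1) ≤ C * (r (j + 1) + p * y (j + 1)) := by
      have e : C * (r (j + 1) + p * y (j + 1)) =
          (p * om + (1 - om) * A) * r (j + 1) + (1 + (1 - om)) * r (j + 1)
            + om / p ^ 2 * r (j + 1)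
            + (p * om + (1 - om) * A + 1 + (1 - om)) * (p * y (j + 1))
            + om * (y (j + 1) / p) := by
        rw [hC]; field_simp; ring
      rw [e]
      have q1 : 0 ≤ om / p ^ 2 * r (j + 1) := mul_nonneg (by positivity) (hr0 _).le
      have q2 : 0 ≤ (p * om + (1 - om) * A + 1 + (1 - om)) * (p * y (j + 1)) := by
        apply mul_nonneg _ (mul_nonneg hp.le (hy _))
        have := mul_pos hp hom
        have := mul_nonneg hbe.le hA
        linarith
      nlinarith
    have a4 := hrec j
    have a5 : (r (j + 1) + p * y (j + 1)) ≤ y j * (C * (r (j + 1) + p * y (j + 1))) :=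
      a4.trans (mul_le_mul_of_nonneg_left a3 (hy j))
    have a6 : 0 < r (j + 1) + p * y (j + 1) := by
      have := hr0 (j + 1)
      have := mul_nonneg hp.le (hy (j + 1))
      linarith
    have a7 : 1 ≤ y j * C := by
      by_contra hcon
      push Not at hcon
      nlinarith
    rw [div_le_iff₀ hCpos]
    exact a7
  -- the infimum
  set M := ⨅ j, y j with hM
  have hbdd : BddBelow (Set.range y) := ⟨0, by rintro _ ⟨j, rfl⟩; exact hy j⟩
  have hMle : ∀ j, M ≤ y j := fun j => ciInf_le hbdd j
  have hM0 : 0 < M := lt_of_lt_of_le (by positivity) (le_ciInf hlow)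
  rcases lt_or_ge (p - A) M with hMd | hMd
  · -- all gains are large
    refine ⟨(A + M) / p - 1, ?_, Or.inl ?_⟩
    · have : 1 < (A + M) / p := by rw [lt_div_iff₀ hp]; linarith
      linarith
    · intro j
      have : (A + M) / p ≤ v j := by
        rw [hv' j, div_le_div_iff_of_pos_right hp]
        have a1 := mul_le_mul_of_nonneg_left (hMle j) hom.le
        have a2 := mul_le_mul_of_nonneg_left (hMle (j + 1)) hbe.le
        nlinarith
      linarith
  · rcases le_or_gt (M * om) (p ^ 2) with hc | hc
    · -- contradiction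
      exfalso
      obtain ⟨g, hg, hkey⟩ := keyII hom h1 hA hM0 hMd hc
      have hB : 0 < A + 1 / (1 - om) := by positivity
      have hall : ∀ j, M + g / (A + 1 / (1 - om)) ≤ y j := by
        intro j
        have hcon : p * y (j + 1 + 1) ≤ y (j + 1) * (A + 1 / (1 - om)) := by
          have q1 := hrec (j + 1)
          have q2 := hr0 (j + 1 + 1)
          have q3 := mul_le_mul_of_nonneg_left (hE (j + 1)) (hy (j + 1))
          linarith
        have k := hkey (y (j + 1)) (y (j + 1 + 1)) (y (j + 1 + 1 + 1)) (hMle _) (hMle _) (hMle _) hcon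
        rw [← hv' (j + 1), ← hv' (j + 1 + 1), ← hr' j, ← hr' (j + 1)] at k
        have k2 := hrec j
        have k3 : g ≤ (y j - M) * (A + om * r j + (1 - om) * r (j + 1)) := by nlinarith
        have k4 : (y j - M) * (A + om * r j + (1 - om) * r (j + 1)) ≤
            (y j - M) * (A + 1 / (1 - om)) :=
          mul_le_mul_of_nonneg_left (hE j) (sub_nonneg.2 (hMle j))
        have k5 : g / (A + 1 / (1 - om)) ≤ y j - M := by
          rw [div_le_iff₀ hB]; linarith
        linarith
      have : M + g / (A + 1 / (1 - om)) ≤ M := le_ciInf hall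
      have : 0 < g / (A + 1 / (1 - om)) := by positivity
      linarith
    · -- the corner
      have hpM : p ^ 2 / om ≤ M := by
        rw [div_le_iff₀ hom]; linarith
      have hpom : p < om := by
        have : p * p < p * om := by nlinarith
        exact lt_of_mul_lt_mul_left this hp.le
      refine ⟨p ^ 2 * ((A + p ^ 2 / om) / p) / (A + 1 / (1 - om)), by positivity, Or.inr ?_⟩
      intro j
      have k := cornerII (y0 := y j) (y1 := y (j + 1)) (y2 := y (j + 1 + 1))
        (y3 := y (j + 1 + 1 + 1)) (s := r j) (t := r (j + 1)) (x := v (j + 1)) (v0 := v j)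
        hom h1 hA hp hpom (by linarith) (hpM.trans (hMle _)) (hpM.trans (hMle _))
        (hpM.trans (hMle _)) (hv' (j + 1)) (hr' j) (by rw [hr' (j + 1), hv' (j + 1 + 1)])
        (hv j) (hrec j)
      linarith

end Pool.Agent.RatG3
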